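import Pool.Agent.Q181.TG.Stm2
import Pool.Agent.Q249.BD.NetA

/-!
# Project TG (helper181), job TG-NF: the normal form
-/

set_option autoImplicit false

namespace Pool.Agent.Q177.TG

open Pool.Agent.Q181.BD TH57.Thr Pool.Agent.Q181.TG

variable {G : Type} [Group G] {ι κ : Type}

lemma ix_mv (g : G) (v : Vx G ι κ) : ix (mv g v) = ix v := by
  rcases v with p | q <;> rfl

lemma ix_bs (p : ι ⊕ κ) : ix (bs p : Vx G ι κ) = p := by
  rcases p with p | q <;> rfl

lemma adj_wz (A : Matrix ι κ (MonoidAlgebra ℤ G)) (u v : Vx G ι κ) :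
    (gr A).Adj u v ↔ wz A u v ≠ 0 := by
  rw [gr_adj, ← wz_cast]
  exact not_congr Int.cast_eq_zero

/-- representatives of the components -/
structure Rep (A : Matrix ι κ (MonoidAlgebra ℤ G)) (ρ : ι ⊕ κ → ι ⊕ κ) (u : ι ⊕ κ → G) :
    Prop where
  reach : ∀ p, (gr A).Reachable (bs (ρ p)) (mv (u p) (bs p))
  eq : ∀ p q g, (gr A).Reachable (bs p) (mv g (bs q)) → ρ p = ρ q

lemma exists_rep (A : Matrix ι κ (MonoidAlgebra ℤ G)) : ∃ ρ u, Rep A ρ u := by
  let st : Setoid (ι ⊕ κ) :=
    { r := fun p q => ∃ g : G, (gr A).Reachable (bs p) (mv g (bs q))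
      iseqv := by
        refine ⟨fun p => ⟨1, by rw [mv_one]⟩, ?_, ?_⟩
        · rintro p q ⟨g, hg⟩
          refine ⟨g⁻¹, ?_⟩
          have := reachable_mv A g⁻¹ hg
          rw [← mv_mul, inv_mul_cancel, mv_one] at this
          exact this.symm
        · rintro p q r ⟨g, hg⟩ ⟨h, hh⟩
          refine ⟨g * h, ?_⟩
          rw [mv_mul]
          exact hg.trans (reachable_mv A g hh) }
  have hρ : ∀ p, ∃ g : G, (gr A).Reachable (bs (Quotient.mk st p).out) (mv g (bs p)) := fun p =>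
    Quotient.exact (Quotient.out_eq (Quotient.mk st p))
  choose u hu using hρ
  refine ⟨fun p => (Quotient.mk st p).out, u, ⟨hu, ?_⟩⟩
  intro p q g h
  have : Quotient.mk st p = Quotient.mk st q := Quotient.sound ⟨g, h⟩
  simp only [this]

variable {A : Matrix ι κ (MonoidAlgebra ℤ G)} {ρ : ι ⊕ κ → ι ⊕ κ} {u : ι ⊕ κ → G}

lemma Rep.idem (h : Rep A ρ u) (p : ι ⊕ κ) : ρ (ρ p) = ρ p := h.eq _ _ _ (h.reach p)

lemma Rep.ix_eq (h : Rep A ρ u) {b : ι ⊕ κ} (hb : ρ b = b) {x : Vx G ι κ}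
    (hx : (gr A).Reachable (bs b) x) : ρ (ix x) = b := by
  rw [← hb]
  refine (h.eq b (ix x) (ge x) ?_).symm
  rw [mv_ge_bs]
  exact hx

lemma edge_adj {i : ι} {j : κ} {h : G} (hne : (A i j).coeff h ≠ 0) (g : G) :
    wz A (mv g (bs (Sum.inl i))) (mv (g * h) (bs (Sum.inr j))) ≠ 0 := by
  simp only [mv, bs, wz, mul_one]
  rw [← mul_assoc, inv_mul_cancel, one_mul]
  exact hne

lemma Rep.same (hR : Rep A ρ u) {i : ι} {j : κ} {h : G} (hne : (A i j).coeff h ≠ 0) :
    ρ (Sum.inl i) = ρ (Sum.inr j) := by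
  have h1 := edge_adj hne 1
  rw [mv_one, one_mul, ← adj_wz] at h1
  exact hR.eq _ _ _ h1.reachable

lemma stab_of {b x : Vx G ι κ} {k : G} (h1 : (gr A).Reachable b x)
    (h2 : (gr A).Reachable b (mv k x)) : k ∈ stab A b := by
  rw [mem_stab]
  exact h2.trans (reachable_mv A k h1).symm

/-! ### powers of the translation -/

lemma T_pow {b : Vx G ι κ} {s : G} {T : Equiv.Perm {v : Vx G ι κ // (gr A).Reachable b v}}
    (hT : ∀ v, (T v).1 = mv s v.1) (n : ℤ) (v : {v : Vx G ι κ // (gr A).Reachable b v}) :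
    ((T ^ n) v).1 = mv (s ^ n) v.1 := by
  have hnat : ∀ (m : ℕ) (v : {v : Vx G ι κ // (gr A).Reachable b v}),
      ((T ^ m) v).1 = mv (s ^ m) v.1 := by
    intro m
    induction m with
    | zero =>
      intro v
      rw [pow_zero, pow_zero, mv_one]
      rfl
    | succ m ih =>
      intro v
      rw [pow_succ', pow_succ', mv_mul, ← ih v, ← hT]
      rfl
  obtain ⟨m, rfl | rfl⟩ := n.eq_nat_or_neg
  · rw [zpow_natCast, zpow_natCast]
    exact hnat m v
  · obtain ⟨w, hw⟩ : ∃ w, w = (T ^ (-(m : ℤ))) v := ⟨_, rfl⟩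
    have h1 : (T ^ m) w = v := by
      rw [hw, zpow_neg, zpow_natCast]
      show ((T ^ m) * (T ^ m)⁻¹) v = v
      rw [mul_inv_cancel]
      rfl
    have h2 := hnat m w
    rw [h1] at h2
    rw [← hw, h2, ← mv_mul, zpow_neg, zpow_natCast, inv_mul_cancel, mv_one]

lemma g_pow {V : Type} {T : Equiv.Perm V} {g : V → ℤ} (hg : ∀ x, g (T x) = g x + 1) (n : ℤ)
    (x : V) : g ((T ^ n) x) = g x + n := by
  have hnat : ∀ (m : ℕ) (v : V), g ((T ^ m) v) = g v + m := by
    intro m
    induction m with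
    | zero => intro v; simp
    | succ m ih =>
      intro v
      rw [pow_succ', Equiv.Perm.mul_apply, hg, ih]
      push_cast
      ring
  obtain ⟨m, rfl | rfl⟩ := n.eq_nat_or_neg
  · rw [zpow_natCast]
    exact hnat m x
  · obtain ⟨w, hw⟩ : ∃ w, w = (T ^ (-(m : ℤ))) x := ⟨_, rfl⟩
    have h1 : (T ^ m) w = x := by
      rw [hw, zpow_neg, zpow_natCast]
      show ((T ^ m) * (T ^ m)⁻¹) x = x
      rw [mul_inv_cancel]
      rfl
    have h2 := hnat m w
    rw [h1] at h2
    rw [← hw, h2]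
    ring

/-! ### the torus type -/

open Classical in
lemma tt_ext {b : Vx G ι κ}
    (hTT : TT (fun u v : {v : Vx G ι κ // (gr A).Reachable b v} => wz A u.1 v.1)) {x : Vx G ι κ}
    (hx : (gr A).Reachable b x) (x' : Vx G ι κ) (S : Finset (Vx G ι κ))
    (hS : ∀ v, wz A x v ≠ 0 → v ∈ S) :
    ∑ v ∈ S, wz A x v * wz A x' v = if x = x' then 4 else 0 := by
  have hnb : ∀ v, wz A x v ≠ 0 → (gr A).Reachable b v := fun v hv =>
    hx.trans ((adj_wz A x v).2 hv).reachable
  by_cases hx' : (gr A).Reachable b x'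
  · have h1 := hTT ⟨x, hx⟩ ⟨x', hx'⟩ (S.subtype (fun v => (gr A).Reachable b v)) (by
      intro v hv
      rw [Finset.mem_subtype]
      exact hS v.1 hv)
    rw [Finset.sum_subtype_eq_sum_filter (f := fun v => wz A x v * wz A x' v),
      Finset.sum_filter_of_ne] at h1
    · rw [h1]
      simp only [Subtype.mk.injEq]
    · intro v _ hv
      exact hnb v (left_ne_zero_of_mul hv)
  · rw [if_neg (by rintro rfl; exact hx' hx)]
    refine Finset.sum_eq_zero fun v _ => ?_
    by_contra hne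
    have h1 := left_ne_zero_of_mul hne
    have h2 := right_ne_zero_of_mul hne
    exact hx' ((hnb v h1).trans ((adj_wz A x' v).2 h2).reachable.symm)

lemma to_of_tt [Fintype ι] [Fintype κ] (hR : Rep A ρ u) {b : ι ⊕ κ}
    (hTT : TT (fun u v : {v : Vx G ι κ // (gr A).Reachable (bs b) v} => wz A u.1 v.1)) :
    To A ρ b := by
  classical
  constructor
  · intro i i' g hi
    obtain ⟨a, ha⟩ : ∃ a : G, (gr A).Reachable (bs b) (Sum.inl (a, i)) := by
      refine ⟨u (Sum.inl i), ?_⟩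
      have := hR.reach (Sum.inl i)
      rw [hi] at this
      simpa [mv, bs] using this
    obtain ⟨S, hS⟩ : ∃ S : Finset (Vx G ι κ), S = Finset.univ.biUnion (fun j =>
        (A i j).coeff.support.image (fun h => (Sum.inr (a * h, j) : Vx G ι κ))) := ⟨_, rfl⟩
    have h1 := tt_ext hTT ha (Sum.inl (a * g, i')) S (by
      intro v hv
      rcases v with p | ⟨k, j⟩
      · exact absurd rfl hv
      · rw [hS, Finset.mem_biUnion]
        refine ⟨j, Finset.mem_univ _, ?_⟩
        rw [Finset.mem_image]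
        refine ⟨a⁻¹ * k, ?_, by rw [mul_inv_cancel_left]⟩
        rw [Finsupp.mem_support_iff]
        exact hv)
    rw [hS, Finset.sum_biUnion] at h1
    · have h2 : ∀ j : κ, ∑ v ∈ (A i j).coeff.support.image
          (fun h => (Sum.inr (a * h, j) : Vx G ι κ)),
            wz A (Sum.inl (a, i)) v * wz A (Sum.inl (a * g, i')) v =
          (A i j).coeff.sum (fun h x => x * (A i' j).coeff (g⁻¹ * h)) := by
        intro j
        rw [Finset.sum_image]
        · unfold Finsupp.sum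
          refine Finset.sum_congr rfl fun h _ => ?_
          simp only [wz]
          rw [inv_mul_cancel_left, mul_inv_rev, mul_assoc, inv_mul_cancel_left]
        · intro h _ h' _ heq
          simpa using heq
      rw [Finset.sum_congr rfl (fun j _ => h2 j)] at h1
      rw [h1]
      refine if_congr ?_ rfl rfl
      rw [Sum.inl.injEq, Prod.mk.injEq]
      constructor
      · rintro ⟨e1, e2⟩
        exact ⟨e2, by simpa using e1.symm⟩
      · rintro ⟨e1, e2⟩
        exact ⟨by rw [e2, mul_one], e1⟩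
    · intro j _ j' _ hjj
      rw [Function.onFun, Finset.disjoint_left]
      intro v hv hv'
      rw [Finset.mem_image] at hv hv'
      obtain ⟨h, -, rfl⟩ := hv
      obtain ⟨h', -, he⟩ := hv'
      rw [Sum.inr.injEq, Prod.mk.injEq] at he
      exact hjj he.2.symm
  · intro j j' g hj
    obtain ⟨a, ha⟩ : ∃ a : G, (gr A).Reachable (bs b) (Sum.inr (a, j)) := by
      refine ⟨u (Sum.inr j), ?_⟩
      have := hR.reach (Sum.inr j)
      rw [hj] at this
      simpa [mv, bs] using this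
    obtain ⟨S, hS⟩ : ∃ S : Finset (Vx G ι κ), S = Finset.univ.biUnion (fun i =>
        (A i j).coeff.support.image (fun h => (Sum.inl (a * h⁻¹, i) : Vx G ι κ))) := ⟨_, rfl⟩
    have h1 := tt_ext hTT ha (Sum.inr (a * g, j')) S (by
      intro v hv
      rcases v with ⟨k, i⟩ | q
      · rw [hS, Finset.mem_biUnion]
        refine ⟨i, Finset.mem_univ _, ?_⟩
        rw [Finset.mem_image]
        refine ⟨k⁻¹ * a, ?_, by rw [mul_inv_rev, inv_inv, mul_inv_cancel_left]⟩
        rw [Finsupp.mem_support_iff]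
        exact hv
      · exact absurd rfl hv)
    rw [hS, Finset.sum_biUnion] at h1
    · have h2 : ∀ i : ι, ∑ v ∈ (A i j).coeff.support.image
          (fun h => (Sum.inl (a * h⁻¹, i) : Vx G ι κ)),
            wz A (Sum.inr (a, j)) v * wz A (Sum.inr (a * g, j')) v =
          (A i j).coeff.sum (fun h x => x * (A i j').coeff (h * g)) := by
        intro i
        rw [Finset.sum_image]
        · unfold Finsupp.sum
          refine Finset.sum_congr rfl fun h _ => ?_
          simp only [wz]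
          rw [mul_inv_rev, inv_inv, inv_mul_cancel_right, mul_assoc, inv_mul_cancel_left]
        · intro h _ h' _ heq
          simpa using heq
      rw [Finset.sum_congr rfl (fun i _ => h2 i)] at h1
      rw [h1]
      refine if_congr ?_ rfl rfl
      rw [Sum.inr.injEq, Prod.mk.injEq]
      constructor
      · rintro ⟨e1, e2⟩
        exact ⟨e2, by simpa using e1.symm⟩
      · rintro ⟨e1, e2⟩
        exact ⟨by rw [e2, mul_one], e1⟩
    · intro i _ i' _ hii
      rw [Function.onFun, Finset.disjoint_left]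
      intro v hv hv'
      rw [Finset.mem_image] at hv hv'
      obtain ⟨h, -, rfl⟩ := hv
      obtain ⟨h', -, he⟩ := hv'
      rw [Sum.inl.injEq, Prod.mk.injEq] at he
      exact hii he.2.symm

/-! ### the cut type -/

lemma cut_case [Fintype ι] [Fintype κ] (hR : Rep A ρ u) {b : ι ⊕ κ} (hb : ρ b = b) {σ : G}
    (hσ : σ ≠ 1) (hst : stab A (bs b) = Subgroup.zpowers σ)
    (T : Equiv.Perm {v : Vx G ι κ // (gr A).Reachable (bs b) v}) (hT : ∀ v, (T v).1 = mv σ v.1)
    (v : {v : Vx G ι κ // (gr A).Reachable (bs b) v})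
    (g : {v : Vx G ι κ // (gr A).Reachable (bs b) v} → ℤ)
    (hg : Gap (fun u v : {v : Vx G ι κ // (gr A).Reachable (bs b) v} => wz A u.1 v.1) T v g) :
    ∃ w : ι ⊕ κ → G, (∃ v, Ro A ρ w (fun _ => σ) b v) ∨ ∃ v, Co A ρ w (fun _ => σ) b v := by
  classical
  have hp0 : ρ (ix v.1) = b := hR.ix_eq hb v.2
  -- the new representatives
  have hex : ∀ p, ∃ w : G, ρ p = b → ∃ z : {v : Vx G ι κ // (gr A).Reachable (bs b) v},
      z.1 = mv w (bs p) ∧ g z = 0 ∧ (p = ix v.1 → z = v) := by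
    intro p
    by_cases hp : ρ p = b
    · by_cases hpv : p = ix v.1
      · refine ⟨ge v.1, fun _ => ⟨v, ?_, hg.zero, fun _ => rfl⟩⟩
        rw [hpv, mv_ge_bs]
      · have hr := hR.reach p
        rw [hp] at hr
        obtain ⟨y, hy⟩ : ∃ y : {v : Vx G ι κ // (gr A).Reachable (bs b) v},
            y = ⟨mv (u p) (bs p), hr⟩ := ⟨_, rfl⟩
        refine ⟨σ ^ (-g y) * u p, fun _ => ⟨(T ^ (-g y)) y, ?_, ?_, fun h => absurd h hpv⟩⟩
        · rw [T_pow hT, mv_mul, hy]
        · rw [g_pow hg.map]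
          ring
    · exact ⟨1, fun h => absurd h hp⟩
  choose w hw using hex
  refine ⟨w, ?_⟩
  -- the edges
  have edge : ∀ i j h, ρ (Sum.inl i) = b → (A i j).coeff h ≠ 0 →
      ∃ (n : ℤ) (zi zj : {v : Vx G ι κ // (gr A).Reachable (bs b) v}),
        w (Sum.inl i) * h = σ ^ n * w (Sum.inr j) ∧ ix zi.1 = Sum.inl i ∧ ix zj.1 = Sum.inr j ∧
        g zi = 0 ∧ g ((T ^ n) zj) = n ∧ (Sum.inl i = ix v.1 → zi = v) ∧
        (Sum.inr j = ix v.1 → zj = v) ∧ wz A zi.1 ((T ^ n) zj).1 ≠ 0 := by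
    intro i j h hi hne
    have hj : ρ (Sum.inr j) = b := by rw [← hR.same hne, hi]
    obtain ⟨zi, hz1, hz2, hz3⟩ := hw (Sum.inl i) hi
    obtain ⟨zj, hy1, hy2, hy3⟩ := hw (Sum.inr j) hj
    have hadj := edge_adj hne (w (Sum.inl i))
    rw [← hz1] at hadj
    have hreach : (gr A).Reachable (bs b) (mv (w (Sum.inl i) * h) (bs (Sum.inr j))) :=
      zi.2.trans ((adj_wz A _ _).2 hadj).reachable
    have hk : w (Sum.inl i) * h * (w (Sum.inr j))⁻¹ ∈ stab A (bs b) := by
      apply stab_of zj.2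
      rw [hy1, ← mv_mul, inv_mul_cancel_right]
      exact hreach
    rw [hst, Subgroup.mem_zpowers_iff] at hk
    obtain ⟨n, hn⟩ := hk
    have hn' : w (Sum.inl i) * h = σ ^ n * w (Sum.inr j) := by
      rw [hn, inv_mul_cancel_right]
    refine ⟨n, zi, zj, hn', ?_, ?_, hz2, ?_, hz3, hy3, ?_⟩
    · rw [hz1, ix_mv, ix_bs]
    · rw [hy1, ix_mv, ix_bs]
    · rw [g_pow hg.map, hy2, zero_add]
    · rw [T_pow hT, hy1, ← mv_mul, ← hn']
      exact hadj
  have key : ∀ i j h, ρ (Sum.inl i) = b → (A i j).coeff h ≠ 0 → Sum.inl i ≠ ix v.1 →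
      Sum.inr j ≠ ix v.1 → w (Sum.inl i) * h = w (Sum.inr j) := by
    intro i j h hi hne h1 h2
    obtain ⟨n, zi, zj, e1, e2, e3, e4, e5, -, -, e8⟩ := edge i j h hi hne
    have h3 := hg.const zi ((T ^ n) zj) e8 (by
      intro m hm
      apply h1
      rw [← e2, ← hm, T_pow hT, ix_mv]) (by
      intro m hm
      apply h2
      have := congrArg (fun z : {v : Vx G ι κ // (gr A).Reachable (bs b) v} => ix z.1) hm
      simp only [T_pow hT, ix_mv] at this
      rw [← e3, this])
    rw [e4, e5] at h3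
    rw [e1, ← h3, zpow_zero, one_mul]
  rcases hv : ix v.1 with i₀ | j₀
  · left
    rw [hv] at hp0 key
    refine ⟨i₀, hσ, hp0, fun i j h hi hne => ⟨fun hii => ?_, fun hii => ?_⟩⟩
    · exact key i j h hi hne (fun hc => hii (Sum.inl.inj hc)) (by simp)
    · obtain ⟨n, zi, zj, e1, e2, e3, e4, e5, e6, -, e8⟩ := edge i j h hi hne
      have hzi : zi = v := e6 (by rw [hv, hii])
      rw [hzi] at e8
      rcases hg.nbr ((T ^ n) zj) e8 with h3 | h3
      · left
        rw [e5] at h3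
        rw [e1, h3, zpow_zero, one_mul]
      · right
        rw [e5] at h3
        rw [e1, h3, zpow_neg, zpow_one, mul_inv_cancel_left]
  · right
    rw [hv] at hp0 key
    refine ⟨j₀, hσ, hp0, fun i j h hi hne => ⟨fun hjj => ?_, fun hjj => ?_⟩⟩
    · exact key i j h hi hne (by simp) (fun hc => hjj (Sum.inr.inj hc))
    · obtain ⟨n, zi, zj, e1, e2, e3, e4, e5, -, e7, e8⟩ := edge i j h hi hne
      have hzj : zj = v := e7 (by rw [hv, hjj])
      rw [hzj] at e8
      have h4 : wz A v.1 ((T ^ (-n)) zi).1 ≠ 0 := by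
        rw [wz_symm, ← wz_mv A (σ ^ n), T_pow hT, ← mv_mul, ← zpow_add, add_neg_cancel, zpow_zero,
          mv_one, ← T_pow hT]
        exact e8
      have h5 := g_pow hg.map (-n) zi
      rw [e4, zero_add] at h5
      rcases hg.nbr ((T ^ (-n)) zi) h4 with h3 | h3
      · left
        have hn : n = 0 := by omega
        rw [e1, hn, zpow_zero, one_mul]
      · right
        have hn : n = 1 := by omega
        rw [e1, hn, zpow_one]

lemma three_sqrt : (1 : ℝ) < 3 / Real.sqrt 2 ∧ ∀ c : ℝ, 0 ≤ c → c < 3 / Real.sqrt 2 →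
    c ^ 2 < 9 / 2 := by
  have h2 : 0 < Real.sqrt 2 := Real.sqrt_pos.2 (by norm_num)
  have h3 : Real.sqrt 2 ^ 2 = 2 := Real.sq_sqrt (by norm_num)
  constructor
  · rw [lt_div_iff₀ h2, one_mul]
    nlinarith
  · intro c hc hlt
    rw [lt_div_iff₀ h2] at hlt
    have h4 : (c * Real.sqrt 2) ^ 2 < 3 ^ 2 := pow_lt_pow_left₀ hlt (by positivity) (by norm_num)
    rw [mul_pow, h3] at h4
    linarith

/-- TG-NF: the normal form. -/
theorem t_nf : S_cmp → S_class → S_nf := by
  classical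
  intro hC hCl G _ htf ι κ _ _ _ _ A c hc0 hc hA
  have hm : NormLE A (max c 1) := by
    intro x
    refine (hA x).trans (mul_le_mul_of_nonneg_right ?_ ?_)
    · exact pow_le_pow_left₀ hc0 (le_max_left c 1) 2
    · exact Finset.sum_nonneg fun i _ => Finset.sum_nonneg fun g _ => sq_nonneg _
  have hN := Pool.Agent.Q249.BD.t_net G ι κ A c hc0 hc hA
  have hc1 : max c 1 < 3 / Real.sqrt 2 := max_lt hc three_sqrt.1
  have hpos : 0 < max c 1 := lt_of_lt_of_le one_pos (le_max_right c 1)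
  obtain ⟨ρ, u, hR⟩ := exists_rep A
  have hs : ∀ b : ι ⊕ κ, ∃ s : G, stab A (bs b) = Subgroup.zpowers s := by
    intro b
    have h1 := stab_cyclic htf A (max c 1) hpos (three_sqrt.2 _ hpos.le hc1) hm (bs b)
    obtain ⟨s, hs⟩ := (Subgroup.isCyclic_iff_exists_zpowers_eq_top (stab A (bs b))).1 h1
    exact ⟨s, hs.symm⟩
  choose s hs using hs
  have hloc : ∀ b : ι ⊕ κ, ∃ w : ι ⊕ κ → G, Fi A ρ w b ∨ To A ρ b ∨
      (∃ v, Ro A ρ w s b v) ∨ ∃ v, Co A ρ w s b v := by
    intro b
    by_cases hb : ρ b = b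
    · by_cases hs1 : s b = 1
      · refine ⟨u, Or.inl ?_⟩
        intro i j h hi hne
        have hj : ρ (Sum.inr j) = b := by rw [← hR.same hne, hi]
        have h1 := hR.reach (Sum.inl i)
        have h2 := hR.reach (Sum.inr j)
        rw [hi] at h1
        rw [hj] at h2
        have hadj := edge_adj hne (u (Sum.inl i))
        have hreach := h1.trans ((adj_wz A _ _).2 hadj).reachable
        have hk : u (Sum.inl i) * h * (u (Sum.inr j))⁻¹ ∈ stab A (bs b) := by
          apply stab_of h2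
          rw [← mv_mul, inv_mul_cancel_right]
          exact hreach
        rw [hs b, hs1, Subgroup.zpowers_one_eq_bot, Subgroup.mem_bot, mul_inv_eq_one] at hk
        exact hk
      · obtain ⟨T, hT, hNet, hStrip⟩ := hC G htf ι κ A (max c 1) hN (bs b) (s b) hs1 (hs b)
        rcases hCl _ _ _ T hNet hStrip with h | ⟨v, g, hg⟩
        · exact ⟨u, Or.inr (Or.inl (to_of_tt hR h))⟩
        · obtain ⟨w, hw⟩ := cut_case hR hb hs1 (hs b) T hT v g hg
          exact ⟨w, Or.inr (Or.inr hw)⟩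
    · refine ⟨u, Or.inl ?_⟩
      intro i j h hi _
      exact absurd (by rw [← hi]; exact hR.idem _) hb
  choose U hU using hloc
  refine ⟨ρ, fun p => U (ρ p) p, s, ⟨fun i j h hne => hR.same hne, fun b => ?_⟩⟩
  rcases hU b with h | h | ⟨v, h1, h2, h3⟩ | ⟨v, h1, h2, h3⟩
  · left
    intro i j h' hi hne
    have hj : ρ (Sum.inr j) = b := by rw [← hR.same hne, hi]
    simp only [hi, hj]
    exact h i j h' hi hne
  · exact Or.inr (Or.inl h)
  · refine Or.inr (Or.inr (Or.inl ⟨v, h1, h2, ?_⟩))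
    intro i j h' hi hne
    have hj : ρ (Sum.inr j) = b := by rw [← hR.same hne, hi]
    simp only [hi, hj]
    exact h3 i j h' hi hne
  · refine Or.inr (Or.inr (Or.inr ⟨v, h1, h2, ?_⟩))
    intro i j h' hi hne
    have hj : ρ (Sum.inr j) = b := by rw [← hR.same hne, hi]
    simp only [hi, hj]
    exact h3 i j h' hi hne

end Pool.Agent.Q177.TG
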